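import Pool.Agent.helper23.F2.Spec

set_option autoImplicit false

open scoped BigOperators

namespace Pool.Agent.F2

open Pool.Agent.helper23.TH

noncomputable section

open Classical

/-- the object of the walk `some i` which is the vertex `xv (inl i)` -/
def AL7_ov (k : ℕ) (c : Bool) : Ob (k + 1) := if c then .inl (Fin.last k).castSucc else .inl 1

/-- the object which is the vertex `m` or `m'` -/
def AL7_ob (k : ℕ) (c : Bool) : Ob (k + 1) := if c then .inl (Fin.last (k + 1)) else .inl 0

/-- the object which is the edge `xe i` -/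
def AL7_oe (k : ℕ) (c : Bool) : Ob (k + 1) := if c then .inr (Fin.last k) else .inr 0

theorem AL7_inn_ov (k : ℕ) (hk : 1 ≤ k) (c : Bool) : Inn (AL7_ov k c) := by
  cases c
  · refine ⟨?_, ?_⟩
    · intro h
      have h1 : (1 : Fin (k + 2)) = 0 := Sum.inl.inj h
      have h2 := congrArg Fin.val h1
      simp at h2
    · intro h
      have h1 : (1 : Fin (k + 2)) = Fin.last (k + 1) := Sum.inl.inj h
      have h2 := congrArg Fin.val h1
      simp at h2
      omega
  · refine ⟨?_, ?_⟩
    · intro h
      have h1 : (Fin.last k).castSucc = (0 : Fin (k + 2)) := Sum.inl.inj h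
      have h2 := congrArg Fin.val h1
      simp at h2
      omega
    · intro h
      have h1 : (Fin.last k).castSucc = Fin.last (k + 1) := Sum.inl.inj h
      have h2 := congrArg Fin.val h1
      simp at h2

theorem AL7_inn_oe (k : ℕ) (c : Bool) : Inn (AL7_oe k c) := by
  cases c
  · exact ⟨Sum.inr_ne_inl, Sum.inr_ne_inl⟩
  · exact ⟨Sum.inr_ne_inl, Sum.inr_ne_inl⟩

theorem AL7_ov_ne_ob (k : ℕ) (hk : 1 ≤ k) (c d : Bool) : AL7_ov k c ≠ AL7_ob k d := by
  cases d
  · exact (AL7_inn_ov k hk c).1
  · exact (AL7_inn_ov k hk c).2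

theorem AL7_ov_ne_oe (k : ℕ) (c d : Bool) : AL7_ov k c ≠ AL7_oe k d := by
  cases c <;> cases d <;> exact Sum.inl_ne_inr

theorem AL7_ob_ne_oe (k : ℕ) (c d : Bool) : AL7_ob k c ≠ AL7_oe k d := by
  cases c <;> cases d <;> exact Sum.inl_ne_inr

theorem AL7_ob_ne (k : ℕ) (c d : Bool) (h : c ≠ d) : AL7_ob k c ≠ AL7_ob k d := by
  have h0 : (Sum.inl (0 : Fin (k + 2)) : Ob (k + 1)) ≠ Sum.inl (Fin.last (k + 1)) := by
    intro h
    have h1 : (0 : Fin (k + 2)) = Fin.last (k + 1) := Sum.inl.inj h
    have h2 := congrArg Fin.val h1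
    simp at h2
  cases c <;> cases d
  · exact absurd rfl h
  · exact h0
  · exact h0.symm
  · exact absurd rfl h

theorem AL7 : AL7_stmt := by
  intro V L _ b s G k q H m m' w hk hne hS
  have hmem : ∀ i, Wk G.A (k + 1) (w i) ∧ w i 0 = m ∧ w i (Fin.last (k + 1)) = m' := by
    intro i
    have h1 := hS.mem i
    simp only [LG.WW, Finset.mem_filter, Finset.mem_univ, true_and] at h1
    exact h1
  have hxc : ∀ (p p' : Option H.W) (o o' : Ob (k + 1)), p ≠ p' → (Inn o ∨ Inn o') →
      Disjoint (G.obj (w p) o) (G.obj (w p') o') := by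
    intro p p' o o' hp ho
    by_contra hcon
    exact (hS.gp p p' hp).2.2.1 ⟨o, o', ho, hcon⟩
  have hcl : ∀ (p : Option H.W), G.Cln (w p) := by
    intro p
    cases p with
    | none =>
      obtain ⟨i⟩ := hne
      exact (hS.gp none (some i) (by simp)).1
    | some i => exact (hS.gp (some i) none (by simp)).1
  -- the fixed objects
  have hv : ∀ i : H.W, G.lv (xv H m m' w (.inl i)) = G.obj (w (some i)) (AL7_ov k (H.col i)) := by
    intro i
    cases h : H.col i <;> simp [xv, AL7_ov, LG.obj, h]
  have hb : ∀ (c : Bool) (p : Option H.W), G.lv (xv H m m' w (.inr c)) = G.obj (w p) (AL7_ob k c) := by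
    intro c p
    cases c
    · simp [xv, AL7_ob, LG.obj, (hmem p).2.1]
    · simp [xv, AL7_ob, LG.obj, (hmem p).2.2]
  have he : ∀ i : H.W, xe G H m m' w i = G.obj (w (some i)) (AL7_oe k (H.col i)) := by
    intro i
    have h1 := hmem (some i)
    unfold xe
    cases h : H.col i
    · simp only [xv, AL7_oe, LG.obj, h, Bool.false_eq_true, if_false, Fin.castSucc_zero,
        Fin.succ_zero_eq_one]
      rw [h1.2.1]
    · simp only [xv, AL7_oe, LG.obj, h, if_true, Fin.succ_last]
      rw [h1.2.2, G.lsymm]
  refine ⟨?_, ?_, ?_, ?_, ?_⟩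
  · intro i
    have h1 := hmem (some i)
    cases h : H.col i
    · have h2 := h1.1 0
      simp only [xv, h, Bool.false_eq_true, if_false]
      rw [Fin.castSucc_zero, Fin.succ_zero_eq_one, h1.2.1] at h2
      exact h2
    · have h2 := h1.1 (Fin.last k)
      simp only [xv, h, if_true]
      rw [Fin.succ_last, h1.2.2] at h2
      exact G.symm _ _ h2
  · rintro (i | c) (j | d) hij
    · rw [hv i, hv j]
      refine hxc _ _ _ _ ?_ (Or.inl (AL7_inn_ov k hk _))
      intro h
      exact hij (congrArg Sum.inl (Option.some.inj h))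
    · rw [hv i, hb d (some i)]
      exact hcl (some i) _ _ (AL7_ov_ne_ob k hk _ _)
    · rw [hv j, hb c (some j)]
      exact hcl (some j) _ _ (AL7_ov_ne_ob k hk _ _).symm
    · rw [hb c none, hb d none]
      refine hcl none _ _ (AL7_ob_ne k c d ?_)
      intro h
      exact hij (congrArg Sum.inr h)
  · rintro (i | c) j
    · rw [hv i, he j]
      by_cases hij : i = j
      · subst hij
        exact hcl (some i) _ _ (AL7_ov_ne_oe k _ _)
      · refine hxc _ _ _ _ ?_ (Or.inl (AL7_inn_ov k hk _))
        intro h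
        exact hij (Option.some.inj h)
    · rw [hb c (some j), he j]
      exact hcl (some j) _ _ (AL7_ob_ne_oe k _ _)
  · intro i j hij
    rw [he i, he j]
    refine hxc _ _ _ _ ?_ (Or.inl (AL7_inn_oe k _))
    intro h
    exact hij (Option.some.inj h)
  · intro i j hi hj
    have hij : (some j : Option H.W) ≠ some i := by
      intro h
      have h1 := Option.some.inj h
      rw [h1, hi] at hj
      exact Bool.noConfusion hj
    have h1 := (hS.gp (some j) (some i) hij).2.2.2
    simp only [xv, hi, hj, Bool.false_eq_true, if_false, if_true]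
    exact h1

end

end Pool.Agent.F2
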